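import Pool.Agent.Lib_MP_4b1745_w.Defs
import Mathlib.FieldTheory.IsAlgClosed.Basic
import Mathlib.LinearAlgebra.LinearIndependent.Lemmas
import Mathlib.RingTheory.Polynomial.Basic
import Mathlib.LinearAlgebra.Dual.Lemmas
import Mathlib.FieldTheory.Separable
import Mathlib.Tactic.NoncommRing

/-! # Piece A: what an algebraically closed algebra looks like -/

set_option autoImplicit false

namespace Pool.Agent.LibStar.W

open Pool.Agent.LibStar

variable {P R : Type} [Field P] [Ring R] [Algebra P R]

/-- An element of the free product whose value, at some linear operator substituted for all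
unknowns (the elements of `R` acting by left multiplication), differs from its value at the zero
operator, does not lie in `R`. -/
private lemma not_inc_A (f : FP P R) (T : Module.End P R)
    (hT : fpLift (Algebra.lmul P R) (fun _ => T) f 1 ≠
      fpLift (Algebra.lmul P R) (fun _ => (0 : Module.End P R)) f 1) (a : R) :
    f ≠ inc P R a := by
  intro h
  apply hT
  rw [h, fpLift_inc, fpLift_inc]

/-- If `a x - x a = 1` then the commutator with `x` acts on polynomials in `a` as the
derivative. -/
private lemma comm_der_A {a x : R} (hx : a * x - x * a = 1) (q : Polynomial P) :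
    Polynomial.aeval a q * x - x * Polynomial.aeval a q =
      Polynomial.aeval a (Polynomial.derivative q) := by
  have hpow : ∀ n : ℕ, a ^ n * x - x * a ^ n = (n : R) * a ^ (n - 1) := by
    intro n
    induction n with
    | zero => simp
    | succ n ih =>
      have h1 : a ^ (n + 1) * x - x * a ^ (n + 1) =
          a ^ n * (a * x - x * a) + (a ^ n * x - x * a ^ n) * a := by
        rw [pow_succ]
        noncomm_ring
      rw [h1, hx, ih, mul_one, Nat.add_sub_cancel]
      rcases n with _ | n
      · simp
      · rw [Nat.add_sub_cancel, mul_assoc, ← pow_succ]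
        push_cast
        noncomm_ring
  induction q using Polynomial.induction_on' with
  | add p q hp hq =>
    rw [map_add, map_add, map_add, ← hp, ← hq]
    noncomm_ring
  | monomial n c =>
    rw [Polynomial.derivative_monomial, Polynomial.aeval_monomial, Polynomial.aeval_monomial]
    have h2 : algebraMap P R c * a ^ n * x - x * (algebraMap P R c * a ^ n) =
        algebraMap P R c * (a ^ n * x - x * a ^ n) := by
      rw [mul_sub, mul_assoc, ← mul_assoc x, ← Algebra.commutes c x, mul_assoc]
    rw [h2, hpow, map_mul, map_natCast, mul_assoc]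

theorem A1 (h : AC P R) {a b : R} (ha : a ≠ 0) (hb : b ≠ 0) : ∃ x, a * x * b = 1 := by
  obtain ⟨φ, hφ⟩ : ∃ φ : Module.Dual P R, φ b ≠ 0 := by
    by_contra hcon
    push Not at hcon
    exact hb ((Module.forall_dual_apply_eq_zero_iff P b).mp hcon)
  obtain ⟨x, hx⟩ := h.2 (inc P R a * var P R 0 * inc P R b - 1)
    (not_inc_A _ (φ.smulRight 1) (by
      simp only [map_sub, map_mul, map_one, fpLift_inc, fpLift_var]
      intro hc
      apply ha
      have h3 : φ b • a = 0 := by
        simpa using hc
      exact (smul_eq_zero.mp h3).resolve_left hφ))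
  refine ⟨x 0, ?_⟩
  simp only [map_sub, map_mul, map_one, fpLift_inc, fpLift_var, AlgHom.id_apply] at hx
  exact sub_eq_zero.mp hx

theorem A2 (h : AC P R) {z : R} (hz : z ∉ Set.range (algebraMap P R)) :
    ∃ x, z * x - x * z = 1 := by
  have hn := h.1
  have hz' : z ∉ (Submodule.span P {(1 : R)}) := by
    intro hm
    obtain ⟨c, hc⟩ := Submodule.mem_span_singleton.mp hm
    apply hz
    exact ⟨c, by rw [← hc, Algebra.algebraMap_eq_smul_one]⟩
  obtain ⟨φ, hφ, hφ'⟩ := Submodule.exists_dual_map_eq_bot_of_notMem hz' inferInstance
  have hφ1 : φ 1 = 0 := by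
    have : φ 1 ∈ (Submodule.span P {(1 : R)}).map φ :=
      Submodule.mem_map_of_mem (Submodule.mem_span_singleton_self 1)
    rw [hφ'] at this
    exact (Submodule.mem_bot P).mp this
  obtain ⟨x, hx⟩ := h.2 (inc P R z * var P R 0 - var P R 0 * inc P R z - 1)
    (not_inc_A _ (φ.smulRight 1) (by
      simp only [map_sub, map_mul, map_one, fpLift_inc, fpLift_var]
      intro hc
      have h3 : φ z • (1 : R) = 0 := by
        simpa [hφ1] using hc
      exact hφ ((smul_eq_zero.mp h3).resolve_right one_ne_zero)))
  refine ⟨x 0, ?_⟩
  simp only [map_sub, map_mul, map_one, fpLift_inc, fpLift_var, AlgHom.id_apply] at hx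
  exact sub_eq_zero.mp hx

theorem A3 [CharZero P] (h : AC P R) : IsAlgClosed P := by
  have hn := h.1
  apply IsAlgClosed.of_exists_root
  intro p hm hp
  have hne : ∀ r, Polynomial.aeval (var P R 0) p ≠ inc P R r := by
    intro r hr
    have h1 := congrArg (fpLift (P := P) (R := R) (C := Polynomial R)
      (Polynomial.CAlgHom : R →ₐ[P] Polynomial R) (fun _ => Polynomial.X)) hr
    rw [← Polynomial.aeval_algHom_apply, fpLift_var, fpLift_inc] at h1
    have h2 : Polynomial.aeval (Polynomial.X : Polynomial R) p =
        p.map (algebraMap P R) := by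
      have h3 := Polynomial.aeval_algHom_apply (Polynomial.mapAlgHom (Algebra.ofId P R))
        (Polynomial.X : Polynomial P) p
      rw [Polynomial.aeval_X_left_apply] at h3
      rw [Polynomial.coe_mapAlgHom, Polynomial.map_X] at h3
      exact h3
    rw [h2] at h1
    have h4 := congrArg Polynomial.natDegree h1
    rw [Polynomial.natDegree_map_eq_of_injective (algebraMap P R).injective] at h4
    have h5 : (Polynomial.CAlgHom (R := P) r : Polynomial R).natDegree = 0 :=
      Polynomial.natDegree_C r
    rw [h5] at h4
    exact absurd h4 hp.natDegree_pos.ne'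
  obtain ⟨x, hx⟩ := h.2 _ hne
  rw [← Polynomial.aeval_algHom_apply, fpLift_var] at hx
  by_cases hr : x 0 ∈ Set.range (algebraMap P R)
  · obtain ⟨c, hc⟩ := hr
    refine ⟨c, ?_⟩
    rw [← hc, Polynomial.aeval_algebraMap_apply] at hx
    exact (map_eq_zero_iff _ (algebraMap P R).injective).mp hx
  · obtain ⟨y, hy⟩ := A2 h hr
    have hd := comm_der_A hy p
    rw [hx, zero_mul, mul_zero, sub_zero] at hd
    obtain ⟨u, v, huv⟩ := hp.separable
    have h1 := congrArg (Polynomial.aeval (x 0)) huv
    rw [map_add, map_mul, map_mul, hx, ← hd, mul_zero, mul_zero, add_zero, map_one] at h1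
    exact absurd h1 zero_ne_one

end Pool.Agent.LibStar.W
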