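import Pool.Agent.Lib_MP_4b1745_w.Defs
import Pool.Agent.Lib_MP_4b1745_al.Main
import Pool.Agent.Lib_MP_4b1745_al.KExists

/-! # Piece B: algebraically closed algebras over large fields -/

set_option autoImplicit false

namespace Pool.Agent.LibStar.W

open Pool.Agent.LibStar

section

open KE MvPolynomial

/-- The chain of fields over a given field of constants. -/
noncomputable def chainC (C : Type) [Field C] [CharZero C] : ℕ → KE.DD
  | 0 => { K := C, D := 0, E := 0, comm := fun a => by simp }
  | n + 1 => (exists_next (chainC C n)).choose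

/-- the field with two derivations, over a given field of constants -/
theorem exists_K_over (C : Type) [Field C] [CharZero C] :
    ∃ (K : Type) (_ : Field K) (_ : CharZero K) (D E : Derivation ℤ K K) (j : C →+* K),
      (∀ a, D (E a) = E (D a)) ∧ (∀ c, D (j c) = 0) ∧ (∀ c, E (j c) = 0) ∧
      ∀ N : MvPolynomial (ℕ × ℕ) K, N ∉ Set.range MvPolynomial.C →
        ∃ u : K, MvPolynomial.eval (fun ij : ℕ × ℕ => D^[ij.1] (E^[ij.2] u)) N = 0 := by
  obtain ⟨S, f, hf, hS⟩ : ∃ (S : ℕ → KE.DD) (f : ∀ n, (S n).K →+* (S (n + 1)).K),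
      (∀ n, Good (S n) (S (n + 1)) (f n)) ∧
      S 0 = { K := C, D := 0, E := 0, comm := fun a => by simp } :=
    ⟨chainC C, fun n => (exists_next (chainC C n)).choose_spec.choose,
      fun n => (exists_next (chainC C n)).choose_spec.choose_spec, rfl⟩
  obtain ⟨j0, hj1, hj2⟩ : ∃ j0 : C →+* (S 0).K, (∀ c, (S 0).D (j0 c) = 0) ∧
      ∀ c, (S 0).E (j0 c) = 0 := by
    rw [hS]
    exact ⟨RingHom.id C, fun c => rfl, fun c => rfl⟩
  refine ⟨Lim f, inferInstance, charZero_lim f, limDer f (fun i => (S i).D) (cmap_D hf),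
    limDer f (fun i => (S i).E) (cmap_E hf), (ofS f 0).comp j0, ?_, ?_, ?_, ?_⟩
  · intro a
    obtain ⟨i, x, rfl⟩ := exists_ofS f a
    rw [limDer_ofS, limDer_ofS, limDer_ofS, limDer_ofS, (S i).comm]
  · intro c
    rw [RingHom.comp_apply, limDer_ofS, hj1, map_zero]
  · intro c
    rw [RingHom.comp_apply, limDer_ofS, hj2, map_zero]
  · intro N hN
    obtain ⟨n, N', rfl⟩ := exists_poly f N
    have hN' : N' ∉ Set.range MvPolynomial.C := by
      rintro ⟨a, rfl⟩
      exact hN ⟨ofS f n a, (map_C _ _).symm⟩
    obtain ⟨u, hu⟩ := (hf n).solve N' hN'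
    refine ⟨ofS f (n + 1) u, ?_⟩
    rw [eval_map]
    have hD : Function.Semiconj (ofS f (n + 1)) (S (n + 1)).D
        (limDer f (fun i => (S i).D) (cmap_D hf)) :=
      fun x => (limDer_ofS f (fun i => (S i).D) (cmap_D hf) (n + 1) x).symm
    have hE : Function.Semiconj (ofS f (n + 1)) (S (n + 1)).E
        (limDer f (fun i => (S i).E) (cmap_E hf)) :=
      fun x => (limDer_ofS f (fun i => (S i).E) (cmap_E hf) (n + 1) x).symm
    have h1 : (ofS f (n + 1)).comp (f n) = ofS f n := by
      ext x
      have := ofS_cmap f n (n + 1) (Nat.le_succ_of_le le_rfl) x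
      rw [cmap_succ f n n le_rfl, cmap_self] at this
      exact this
    have h2 : (fun ij : ℕ × ℕ => (limDer f (fun i => (S i).D) (cmap_D hf))^[ij.1]
        ((limDer f (fun i => (S i).E) (cmap_E hf))^[ij.2] (ofS f (n + 1) u))) =
        (ofS f (n + 1)) ∘ (fun ij : ℕ × ℕ => (S (n + 1)).D^[ij.1] ((S (n + 1)).E^[ij.2] u)) := by
      funext ij
      rw [Function.comp_apply, (hD.iterate_right ij.1).eq, (hE.iterate_right ij.2).eq]
    rw [h2, ← h1]
    have h3 := congrArg (ofS f (n + 1)) hu
    rw [map_zero, eval₂_comp_left] at h3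
    exact h3

end

open St in
lemma mono_mul_const {A : Type} [CommRing A] [Algebra ℚ A] [DD A] {a b : A} (ha : DD.D a = 0) :
    (mono 0 a : St A) * mono 0 b = mono 0 (a * b) := by
  have h1 : DD.D (toH (mono 0 a : St A)) = 0 := by
    refine HahnSeries.ext (funext fun γ => ?_)
    change DD.D (co (mono 0 a) γ) = 0
    rw [co_mono]
    split_ifs
    · exact ha
    · exact map_zero _
  change ofH (star (toH (mono 0 a)) (toH (mono 0 b))) = _
  rw [star_const_left h1]
  change (HahnSeries.single 0 a * HahnSeries.single 0 b : HahnSeries ℚ A) =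
    HahnSeries.single 0 (a * b)
  rw [HahnSeries.single_mul_single, add_zero]

theorem exists_big (C : Type) [Field C] [CharZero C] :
    ∃ (P : Type) (_ : Field P) (R : Type) (_ : Ring R) (_ : Algebra P R),
      AC P R ∧ Nonempty (C →+* P) := by
  obtain ⟨K, hF, hC, D, E, j, hDE, hjD, hjE, hK⟩ := exists_K_over C
  let hdd : DD K := ⟨D, E, hDE⟩
  have hcl : Fact (Closed K) := ⟨closed_of_one hK⟩
  refine ⟨PK K, inferInstance, St K, inferInstance, inferInstance, ⟨inferInstance, ?_⟩, ?_⟩
  · intro f hf
    exact solvable f hf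
  · have hcen : ∀ c, St.mono 0 (j c) ∈ Subring.center (St K) := by
      intro c
      rw [Subring.mem_center_iff]
      intro x
      refine (St.central_of_const ?_ ?_ x).symm
      · intro γ
        rw [St.co_mono]
        split_ifs
        · exact hjD c
        · exact map_zero _
      · intro γ
        rw [St.co_mono]
        split_ifs
        · exact hjE c
        · exact map_zero _
    refine ⟨{ toFun := fun c => ⟨St.mono 0 (j c), hcen c⟩, map_one' := ?_, map_mul' := ?_,
              map_zero' := ?_, map_add' := ?_ }⟩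
    · refine Subtype.ext ?_
      change St.mono 0 (j 1) = (1 : St K)
      rw [map_one]
      rfl
    · intro c d
      refine Subtype.ext ?_
      change St.mono 0 (j (c * d)) = (St.mono 0 (j c) * St.mono 0 (j d) : St K)
      rw [map_mul, mono_mul_const (hjD c)]
    · refine Subtype.ext ?_
      change St.mono 0 (j 0) = (0 : St K)
      rw [map_zero, St.mono_zero]
    · intro c d
      refine Subtype.ext ?_
      change St.mono 0 (j (c + d)) = (St.mono 0 (j c) + St.mono 0 (j d) : St K)
      rw [map_add, St.mono_add]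

end Pool.Agent.LibStar.W
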