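import Pool.Agent.Lib_MP_4b1745_al.FreeProd
import Mathlib.SetTheory.Cardinal.Basic
import Mathlib.LinearAlgebra.LinearIndependent.Defs

/-! # Algebraically closed algebras: definitions -/

set_option autoImplicit false

namespace Pool.Agent.LibStar.W

open Pool.Agent.LibStar

/-- `R` is nonzero and every equation over `R` has a solution in `R`. -/
def AC (P R : Type) [Field P] [Ring R] [Algebra P R] : Prop :=
  Nontrivial R ∧ ∀ f : FP P R, (∀ a, f ≠ inc P R a) →
    ∃ x : ℕ → R, fpLift (AlgHom.id P R) x f = 0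

section

variable {P₁ R₁ P₂ R₂ : Type} [Field P₁] [Ring R₁] [Algebra P₁ R₁] [Field P₂] [Ring R₂]
  [Algebra P₂ R₂]

/-- The ring homomorphism of free products given by compatible homomorphisms `j : P₂ → P₁` and
`i : R₂ → R₁`. -/
noncomputable def Phi (j : P₂ →+* P₁) (i : R₂ →+* R₁)
    (h : ∀ c, i (algebraMap P₂ R₂ c) = algebraMap P₁ R₁ (j c)) : FP P₂ R₂ →+* FP P₁ R₁ :=
  letI : Algebra P₂ (FP P₁ R₁) := ((algebraMap P₁ (FP P₁ R₁)).comp j).toAlgebra'
    (fun c x => Algebra.commutes (j c) x)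
  ((fpLift (P := P₂) (R := R₂) (C := FP P₁ R₁)
    { (((inc P₁ R₁ : R₁ →ₐ[P₁] FP P₁ R₁) : R₁ →+* FP P₁ R₁).comp i) with
      commutes' := fun c => by
        change inc P₁ R₁ (i (algebraMap P₂ R₂ c)) = algebraMap P₁ (FP P₁ R₁) (j c)
        rw [h, AlgHom.commutes] }
    (var P₁ R₁)) : FP P₂ R₂ →ₐ[P₂] FP P₁ R₁)

variable (j : P₂ →+* P₁) (i : R₂ →+* R₁)
    (h : ∀ c, i (algebraMap P₂ R₂ c) = algebraMap P₁ R₁ (j c))

lemma Phi_inc (r : R₂) : Phi j i h (inc P₂ R₂ r) = inc P₁ R₁ (i r) := by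
  let _ : Algebra P₂ (FP P₁ R₁) := ((algebraMap P₁ (FP P₁ R₁)).comp j).toAlgebra'
    (fun c x => Algebra.commutes (j c) x)
  exact fpLift_inc _ _ r

lemma Phi_var (k : ℕ) : Phi j i h (var P₂ R₂ k) = var P₁ R₁ k := by
  let _ : Algebra P₂ (FP P₁ R₁) := ((algebraMap P₁ (FP P₁ R₁)).comp j).toAlgebra'
    (fun c x => Algebra.commutes (j c) x)
  exact fpLift_var _ _ k

/-- Two ring homomorphisms on the free product are equal if they agree on `R` and the unknowns. -/
lemma ringHom_ext {C : Type*} [Ring C] {f g : FP P₂ R₂ →+* C}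
    (h1 : ∀ r, f (inc P₂ R₂ r) = g (inc P₂ R₂ r)) (h2 : ∀ k, f (var P₂ R₂ k) = g (var P₂ R₂ k)) :
    f = g := by
  refine RingHom.ext fun x => ?_
  induction x using fp_induction with
  | hinc r => exact h1 r
  | hvar k => exact h2 k
  | hmul a b ha hb => rw [map_mul, map_mul, ha, hb]
  | hadd a b ha hb => rw [map_add, map_add, ha, hb]

end

end Pool.Agent.LibStar.W
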