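import Pool.Agent.Lib_MP_4b1745_w.Defs
import Mathlib.Algebra.FreeAlgebra.Cardinality
import Mathlib.LinearAlgebra.LinearIndependent.Lemmas
import Mathlib.Algebra.Ring.Subring.Basic
import Mathlib.SetTheory.Cardinal.Arithmetic

/-! # Piece L: the closure of a set (Löwenheim–Skolem by hand) -/

set_option autoImplicit false

namespace Pool.Agent.LibStar.W

open Pool.Agent.LibStar Cardinal

variable {P R : Type} [Field P] [Ring R] [Algebra P R]

/-- cardinality of the subring generated by a set -/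
theorem mk_closure_le {A : Type} [Ring A] (s : Set A) :
    #(Subring.closure s) ≤ max ℵ₀ #s := by
  have h1 : Subring.closure s ≤ (Algebra.adjoin ℤ s).toSubring :=
    Subring.closure_le.2 Algebra.subset_adjoin
  have h2 : #(Subring.closure s) ≤ #(Algebra.adjoin ℤ s) :=
    Cardinal.mk_le_of_injective (f := fun x => (⟨x.1, h1 x.2⟩ : Algebra.adjoin ℤ s))
      (fun x y h => Subtype.ext (congrArg (fun z : Algebra.adjoin ℤ s => (z : A)) h))
  refine h2.trans ((Algebra.cardinalMk_adjoin_le ℤ s).trans ?_)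
  simp [max_comm]

open Classical in
/-- chosen solutions -/
noncomputable def solv (h : AC P R) (f : FP P R) : ℕ → R :=
  if hf : ∀ a, f ≠ inc P R a then (h.2 f hf).choose else 0

open Classical in
/-- chosen dependency coefficients -/
noncomputable def coefs (n : ℕ) (r : Fin n → R) : Fin n → P :=
  if hr : ¬ LinearIndependent P r then (Fintype.not_linearIndependent_iff.1 hr).choose else 0

open Classical in
/-- inverse of the scalars -/
noncomputable def sinv (P : Type) {R : Type} [Field P] [Ring R] [Algebra P R] (x : R) : R :=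
  if hx : ∃ c : P, algebraMap P R c = x then algebraMap P R (hx.choose)⁻¹ else 0

/-- the equations with coefficients in `T` -/
def EqSub (P : Type) {R : Type} [Field P] [Ring R] [Algebra P R] (T : Subring R) :
    Subring (FP P R) :=
  Subring.closure (inc P R '' (T : Set R) ∪ Set.range (var P R))

/-- one step -/
noncomputable def stp (h : AC P R) (T : Subring R) : Subring R :=
  Subring.closure ((T : Set R) ∪ ((sinv P) '' (T : Set R) ∪
    (Set.range (fun p : (EqSub P T) × ℕ => solv h p.1.1 p.2) ∪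
     Set.range (fun p : (Σ n : ℕ, (Fin n → T) × Fin n) =>
        algebraMap P R (coefs (P := P) p.1 (fun k => (p.2.1 k : R)) p.2.2)))))

theorem le_stp (h : AC P R) (T : Subring R) : T ≤ stp h T := fun _ hx =>
  Subring.subset_closure (Or.inl hx)

theorem sinv_mem (h : AC P R) (T : Subring R) {x : R} (hx : x ∈ T) : sinv P x ∈ stp h T :=
  Subring.subset_closure (Or.inr (Or.inl ⟨x, hx, rfl⟩))

theorem solv_mem (h : AC P R) (T : Subring R) {f : FP P R} (hf : f ∈ EqSub P T) (k : ℕ) :
    solv h f k ∈ stp h T :=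
  Subring.subset_closure (Or.inr (Or.inr (Or.inl ⟨(⟨f, hf⟩, k), rfl⟩)))

theorem coefs_mem (h : AC P R) (T : Subring R) {n : ℕ} {r : Fin n → R} (hr : ∀ k, r k ∈ T)
    (k : Fin n) : algebraMap P R (coefs (P := P) n r k) ∈ stp h T :=
  Subring.subset_closure (Or.inr (Or.inr (Or.inr ⟨⟨n, (fun k => ⟨r k, hr k⟩), k⟩, rfl⟩)))

theorem mk_stp_le (h : AC P R) (T : Subring R) (κ : Cardinal.{0}) (hκ : ℵ₀ ≤ κ)
    (hT : #T ≤ κ) : #(stp h T) ≤ κ := by
  have hT' : #(T : Set R) ≤ κ := hT
  have h1 : #((sinv P) '' (T : Set R)) ≤ κ := Cardinal.mk_image_le.trans hT'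
  have hE : #(EqSub P T) ≤ κ := by
    refine (mk_closure_le _).trans (max_le hκ ?_)
    refine (Cardinal.mk_union_le _ _).trans (Cardinal.add_le_of_le hκ ?_ ?_)
    · exact Cardinal.mk_image_le.trans hT'
    · refine Cardinal.mk_range_le.trans ?_
      simpa using hκ
  have h2 : #(Set.range (fun p : (EqSub P T) × ℕ => solv h p.1.1 p.2)) ≤ κ := by
    refine Cardinal.mk_range_le.trans ?_
    rw [Cardinal.mk_prod, Cardinal.lift_id, Cardinal.lift_id]
    exact Cardinal.mul_le_of_le hκ hE (by simpa using hκ)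
  have h3 : #(Set.range (fun p : (Σ n : ℕ, (Fin n → T) × Fin n) =>
        algebraMap P R (coefs (P := P) p.1 (fun k => (p.2.1 k : R)) p.2.2))) ≤ κ := by
    refine Cardinal.mk_range_le.trans ?_
    rw [Cardinal.mk_sigma]
    refine (Cardinal.sum_le_sum _ (fun _ : ℕ => κ) fun n => ?_).trans ?_
    · rw [Cardinal.mk_prod, Cardinal.lift_id, Cardinal.lift_id]
      refine Cardinal.mul_le_of_le hκ ?_ ?_
      · rw [← Cardinal.power_def, Cardinal.mk_fin]
        refine (Cardinal.power_le_power_right hT).trans ?_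
        exact Cardinal.power_nat_le hκ
      · rw [Cardinal.mk_fin]
        exact (Cardinal.natCast_lt_aleph0).le.trans hκ
    · rw [Cardinal.sum_const']
      exact Cardinal.mul_le_of_le hκ (by simpa using hκ) le_rfl
  refine (mk_closure_le _).trans (max_le hκ ?_)
  refine (Cardinal.mk_union_le _ _).trans (Cardinal.add_le_of_le hκ hT' ?_)
  refine (Cardinal.mk_union_le _ _).trans (Cardinal.add_le_of_le hκ h1 ?_)
  exact (Cardinal.mk_union_le _ _).trans (Cardinal.add_le_of_le hκ h2 h3)

/-- the chain -/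
noncomputable def chn (h : AC P R) (S : Set R) : ℕ → Subring R
  | 0 => Subring.closure S
  | n + 1 => stp h (chn h S n)

theorem chn_mono (h : AC P R) (S : Set R) : Monotone (chn h S) :=
  monotone_nat_of_le_succ fun n => le_stp h (chn h S n)

theorem mem_iSup_chn (h : AC P R) (S : Set R) {x : R} :
    x ∈ (⨆ n, chn h S n) ↔ ∃ n, x ∈ chn h S n :=
  Subring.mem_iSup_of_directed (chn_mono h S).directed_le

theorem exists_mem_EqSub (h : AC P R) (S : Set R) {f : FP P R}
    (hf : f ∈ Subring.closure (inc P R '' ((⨆ n, chn h S n : Subring R) : Set R) ∪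
      Set.range (var P R))) : ∃ N, f ∈ EqSub P (chn h S N) := by
  have hmono : ∀ {a b : ℕ}, a ≤ b → EqSub P (chn h S a) ≤ EqSub P (chn h S b) := fun hab =>
    Subring.closure_mono (Set.union_subset_union_left _
      (Set.image_mono (chn_mono h S hab)))
  induction hf using Subring.closure_induction with
  | mem x hx =>
    rcases hx with ⟨a, ha, rfl⟩ | hx
    · obtain ⟨n, hn⟩ := (mem_iSup_chn h S).1 ha
      exact ⟨n, Subring.subset_closure (Or.inl ⟨a, hn, rfl⟩)⟩
    · exact ⟨0, Subring.subset_closure (Or.inr hx)⟩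
  | zero => exact ⟨0, zero_mem _⟩
  | one => exact ⟨0, one_mem _⟩
  | add x y _ _ hx hy =>
    obtain ⟨a, ha⟩ := hx
    obtain ⟨b, hb⟩ := hy
    exact ⟨max a b, add_mem (hmono (le_max_left _ _) ha) (hmono (le_max_right _ _) hb)⟩
  | neg x _ hx =>
    obtain ⟨a, ha⟩ := hx
    exact ⟨a, neg_mem ha⟩
  | mul x y _ _ hx hy =>
    obtain ⟨a, ha⟩ := hx
    obtain ⟨b, hb⟩ := hy
    exact ⟨max a b, mul_mem (hmono (le_max_left _ _) ha) (hmono (le_max_right _ _) hb)⟩

theorem exists_closed (h : AC P R) (S : Set R) :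
    ∃ T : Subring R, S ⊆ T ∧ Cardinal.mk T ≤ max ℵ₀ (Cardinal.mk S) ∧
      (∀ c : P, algebraMap P R c ∈ T → algebraMap P R c⁻¹ ∈ T) ∧
      (∀ (n : ℕ) (r : Fin n → R), (∀ k, r k ∈ T) → ¬ LinearIndependent P r →
        ∃ c : Fin n → P, c ≠ 0 ∧ ∑ k, c k • r k = 0 ∧ ∀ k, algebraMap P R (c k) ∈ T) ∧
      (∀ f ∈ Subring.closure (inc P R '' (T : Set R) ∪ Set.range (var P R)),
        (∀ a, f ≠ inc P R a) → ∃ x : ℕ → R, (∀ k, x k ∈ T) ∧
          fpLift (AlgHom.id P R) x f = 0) := by
  haveI : Nontrivial R := h.1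
  refine ⟨⨆ n, chn h S n, ?_, ?_, ?_, ?_, ?_⟩
  · intro x hx
    exact (mem_iSup_chn h S).2 ⟨0, Subring.subset_closure hx⟩
  · have hc : ∀ n, #(chn h S n) ≤ max ℵ₀ #S := by
      intro n
      induction n with
      | zero => exact mk_closure_le S
      | succ n ih => exact mk_stp_le h _ _ (le_max_left _ _) ih
    have hset : (((⨆ n, chn h S n : Subring R) : Set R)) = ⋃ n, (chn h S n : Set R) := by
      ext x
      rw [SetLike.mem_coe, mem_iSup_chn, Set.mem_iUnion]
      rfl
    have : #((⨆ n, chn h S n : Subring R) : Set R) ≤ max ℵ₀ #S := by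
      rw [hset]
      refine (Cardinal.mk_iUnion_le_sum_mk).trans ?_
      refine (Cardinal.sum_le_sum _ (fun _ : ℕ => max ℵ₀ #S) fun n => hc n).trans ?_
      rw [Cardinal.sum_const']
      exact Cardinal.mul_le_of_le (le_max_left _ _) (by simp) le_rfl
    exact this
  · intro c hc
    obtain ⟨n, hn⟩ := (mem_iSup_chn h S).1 hc
    refine (mem_iSup_chn h S).2 ⟨n + 1, ?_⟩
    have h1 := sinv_mem h (chn h S n) hn
    have h2 : ∃ c' : P, algebraMap P R c' = algebraMap P R c := ⟨c, rfl⟩
    rw [sinv, dif_pos h2, (algebraMap P R).injective h2.choose_spec] at h1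
    exact h1
  · intro n r hr hdep
    have hex : ∃ N, ∀ k, r k ∈ chn h S N := by
      choose N hN using fun k => (mem_iSup_chn h S).1 (hr k)
      exact ⟨Finset.univ.sup N, fun k => chn_mono h S (Finset.le_sup (Finset.mem_univ k)) (hN k)⟩
    obtain ⟨N, hN⟩ := hex
    have hspec := (Fintype.not_linearIndependent_iff.1 hdep).choose_spec
    refine ⟨coefs (P := P) n r, ?_, ?_, fun k => (mem_iSup_chn h S).2
      ⟨N + 1, coefs_mem h _ hN k⟩⟩
    · intro h0
      obtain ⟨i, hi⟩ := hspec.2
      rw [coefs, dif_pos hdep] at h0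
      exact hi (congrFun h0 i)
    · rw [coefs, dif_pos hdep]
      exact hspec.1
  · intro f hf hne
    have hex := exists_mem_EqSub h S hf
    obtain ⟨N, hN⟩ := hex
    refine ⟨solv h f, fun k => (mem_iSup_chn h S).2 ⟨N + 1, solv_mem h _ hN k⟩, ?_⟩
    rw [solv, dif_pos hne]
    exact (h.2 f hne).choose_spec

end Pool.Agent.LibStar.W
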