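import Pool.Agent.Lib_MP_4b1745_w.Defs
import Mathlib.LinearAlgebra.LinearIndependent.Lemmas
import Mathlib.LinearAlgebra.Basis.VectorSpace

/-! # Piece N: an element of the smaller free product which becomes constant is constant -/

set_option autoImplicit false

namespace Pool.Agent.LibStar.W

open Pool.Agent.LibStar

/-! ## Normal forms: `r` at the word `(i₁, b₁) ⋯ (iₖ, bₖ)` stands for
`r x_{i₁} b₁ x_{i₂} b₂ ⋯ x_{iₖ} bₖ` -/

section NormalForm

variable {P R I : Type} [Field P] [Ring R] [Algebra P R] (B : Module.Basis I P R)

/-- the action of the unknown `x_k` on normal forms -/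
private noncomputable def XX (k : ℕ) : (List (ℕ × I) →₀ R) →ₗ[P] (List (ℕ × I) →₀ R) :=
  Finsupp.lsum P (fun w => (Finsupp.linearCombination P
    (fun b => Finsupp.single ((k, b) :: w) (1 : R))) ∘ₗ B.repr.toLinearMap)

private lemma XX_single (k : ℕ) (w : List (ℕ × I)) (r : R) :
    XX B k (Finsupp.single w r) = Finsupp.linearCombination P
      (fun b => Finsupp.single ((k, b) :: w) (1 : R)) (B.repr r) := by
  rw [XX, Finsupp.lsum_single]
  rfl

/-- the action of the free product on normal forms -/
private noncomputable def act : FP P R →ₐ[P] Module.End P (List (ℕ × I) →₀ R) :=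
  fpLift (Algebra.lsmul P P (List (ℕ × I) →₀ R)) (XX B)

private lemma act_inc (r : R) (n : List (ℕ × I) →₀ R) : act B (inc P R r) n = r • n := by
  rw [act, fpLift_inc]
  rfl

private lemma act_var (k : ℕ) (n : List (ℕ × I) →₀ R) : act B (var P R k) n = XX B k n := by
  rw [act, fpLift_var]

/-- the word as an element of the free product -/
private noncomputable def word : List (ℕ × I) → FP P R
  | [] => 1
  | t :: w => var P R t.1 * inc P R (B t.2) * word w

/-- the element given by a normal form -/
private noncomputable def Psi : (List (ℕ × I) →₀ R) →ₗ[P] FP P R :=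
  Finsupp.lsum P (fun w => LinearMap.mulRight P (word B w) ∘ₗ (inc P R).toLinearMap)

private lemma Psi_single (w : List (ℕ × I)) (r : R) :
    Psi B (Finsupp.single w r) = inc P R r * word B w := by
  rw [Psi, Finsupp.lsum_single]
  rfl

private lemma Psi_act (f : FP P R) : ∀ n : List (ℕ × I) →₀ R, Psi B (act B f n) = f * Psi B n := by
  induction f using fp_induction with
  | hinc s =>
    intro n
    rw [act_inc]
    induction n using Finsupp.induction_linear with
    | zero => rw [smul_zero, map_zero, mul_zero]
    | add a b ha hb => rw [smul_add, map_add, map_add, ha, hb, mul_add]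
    | single w r =>
      rw [Finsupp.smul_single, Psi_single, Psi_single, smul_eq_mul, map_mul, mul_assoc]
  | hvar k =>
    intro n
    rw [act_var]
    induction n using Finsupp.induction_linear with
    | zero => rw [map_zero, map_zero, mul_zero]
    | add a b ha hb => rw [map_add, map_add, map_add, ha, hb, mul_add]
    | single w r =>
      rw [XX_single, Psi_single]
      obtain ⟨g, rfl⟩ : ∃ g, r = B.repr.symm g := ⟨B.repr r, (B.repr.symm_apply_apply r).symm⟩
      rw [LinearEquiv.apply_symm_apply]
      induction g using Finsupp.induction_linear with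
      | zero => rw [map_zero, map_zero, map_zero, map_zero, zero_mul, mul_zero]
      | add a b ha hb => rw [map_add, map_add, map_add, map_add, ha, hb, add_mul, mul_add]
      | single b c =>
        rw [Finsupp.linearCombination_single, map_smul, Psi_single, Module.Basis.repr_symm_single,
          map_smul, map_one, one_mul, word, smul_mul_assoc, mul_smul_comm, mul_assoc]
  | hmul a b ha hb =>
    intro n
    rw [map_mul, Module.End.mul_apply, ha, hb, mul_assoc]
  | hadd a b ha hb =>
    intro n
    rw [map_add, LinearMap.add_apply, map_add, ha, hb, add_mul]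

private lemma Psi_act_one (f : FP P R) : Psi B (act B f (Finsupp.single [] 1)) = f := by
  rw [Psi_act, Psi_single, map_one, one_mul, word, mul_one]

end NormalForm

variable {P₁ R₁ P₂ R₂ : Type} [Field P₁] [Ring R₁] [Algebra P₁ R₁] [Field P₂] [Ring R₂]
  [Algebra P₂ R₂]

section Compare

variable {I₁ I₂ : Type} (B₁ : Module.Basis I₁ P₁ R₁) (B₂ : Module.Basis I₂ P₂ R₂)

/-- comparison of the normal forms -/
private noncomputable def JJ (i : R₂ →+* R₁) (e : I₂ → I₁) :
    (List (ℕ × I₂) →₀ R₂) →+ (List (ℕ × I₁) →₀ R₁) :=
  (Finsupp.mapDomain.addMonoidHom (List.map (Prod.map id e))).comp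
    (Finsupp.mapRange.addMonoidHom (i : R₂ →+ R₁))

private lemma JJ_single (i : R₂ →+* R₁) (e : I₂ → I₁) (w : List (ℕ × I₂)) (r : R₂) :
    JJ i e (Finsupp.single w r) = Finsupp.single (w.map (Prod.map id e)) (i r) := by
  simp [JJ, Finsupp.mapDomain_single]

private lemma JJ_apply (i : R₂ →+* R₁) (e : I₂ → I₁) (he : Function.Injective e)
    (n : List (ℕ × I₂) →₀ R₂) (w : List (ℕ × I₂)) :
    JJ i e n (w.map (Prod.map id e)) = i (n w) := by
  have hinj : Function.Injective (List.map (Prod.map (id : ℕ → ℕ) e)) :=
    List.map_injective_iff.mpr (Function.Injective.prodMap Function.injective_id he)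
  simp only [JJ, AddMonoidHom.comp_apply]
  change Finsupp.mapDomain _ _ _ = _
  rw [Finsupp.mapDomain_apply hinj]
  rfl

private lemma act_JJ (j : P₂ →+* P₁) (i : R₂ →+* R₁)
    (h : ∀ c, i (algebraMap P₂ R₂ c) = algebraMap P₁ R₁ (j c)) (e : I₂ → I₁)
    (hB : ∀ b, B₁ (e b) = i (B₂ b)) (f : FP P₂ R₂) :
    ∀ n : List (ℕ × I₂) →₀ R₂, act B₁ (Phi j i h f) (JJ i e n) = JJ i e (act B₂ f n) := by
  induction f using fp_induction with
  | hinc s =>
    intro n
    rw [Phi_inc, act_inc, act_inc]
    induction n using Finsupp.induction_linear with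
    | zero => rw [map_zero, smul_zero, smul_zero, map_zero]
    | add a b ha hb => rw [map_add, smul_add, smul_add, map_add, ha, hb]
    | single w r =>
      rw [JJ_single, Finsupp.smul_single, Finsupp.smul_single, JJ_single, smul_eq_mul,
        smul_eq_mul, map_mul]
  | hvar k =>
    intro n
    rw [Phi_var, act_var, act_var]
    induction n using Finsupp.induction_linear with
    | zero => rw [map_zero, map_zero, map_zero, map_zero]
    | add a b ha hb => rw [map_add, map_add, map_add, map_add, ha, hb]
    | single w r =>
      rw [JJ_single, XX_single, XX_single]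
      obtain ⟨g, rfl⟩ : ∃ g, r = B₂.repr.symm g := ⟨B₂.repr r, (B₂.repr.symm_apply_apply r).symm⟩
      rw [LinearEquiv.apply_symm_apply]
      induction g using Finsupp.induction_linear with
      | zero => simp only [map_zero]
      | add a b ha hb => simp only [map_add, ha, hb]
      | single b c =>
        have h1 : i (B₂.repr.symm (Finsupp.single b c)) = j c • B₁ (e b) := by
          rw [Module.Basis.repr_symm_single, hB, Algebra.smul_def, map_mul, h, Algebra.smul_def]
        rw [h1, map_smul, Module.Basis.repr_self, map_smul, Finsupp.linearCombination_single,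
          Finsupp.linearCombination_single, one_smul, Finsupp.smul_single, Finsupp.smul_single,
          JJ_single, Algebra.smul_def, Algebra.smul_def, mul_one, mul_one, h]
        rfl
  | hmul a b ha hb =>
    intro n
    rw [map_mul, map_mul, map_mul, Module.End.mul_apply, Module.End.mul_apply, hb, ha]
  | hadd a b ha hb =>
    intro n
    rw [map_add, map_add, map_add, LinearMap.add_apply, LinearMap.add_apply, map_add, ha, hb]

end Compare

theorem inc_of_Phi (j : P₂ →+* P₁) (i : R₂ →+* R₁)
    (h : ∀ c, i (algebraMap P₂ R₂ c) = algebraMap P₁ R₁ (j c))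
    (hi : Function.Injective i)
    (hLD : ∀ (n : ℕ) (r : Fin n → R₂), LinearIndependent P₂ r →
      LinearIndependent P₁ (fun k => i (r k)))
    (f : FP P₂ R₂) (s : R₁) (hf : Phi j i h f = inc P₁ R₁ s) :
    ∃ r : R₂, f = inc P₂ R₂ r := by
  classical
  have hli : LinearIndependent P₁ (fun b : BI P₂ R₂ => i (bas P₂ R₂ b)) := by
    rw [linearIndependent_iff_finset_linearIndependent]
    intro t
    have h1 : LinearIndependent P₂ (fun k : Fin t.card =>
        bas P₂ R₂ ((t.equivFin.symm k : t) : BI P₂ R₂)) :=
      (bas P₂ R₂).linearIndependent.comp _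
        (Subtype.val_injective.comp t.equivFin.symm.injective)
    have h2 := hLD _ _ h1
    have h3 := h2.comp t.equivFin t.equivFin.injective
    have h4 : (fun k : Fin t.card => i (bas P₂ R₂ ((t.equivFin.symm k : t) : BI P₂ R₂))) ∘
        t.equivFin = (fun b : BI P₂ R₂ => i (bas P₂ R₂ b)) ∘ Subtype.val := by
      funext x
      simp only [Function.comp_apply, Equiv.symm_apply_apply]
    rw [h4] at h3
    exact h3
  have hv : LinearIndepOn P₁ id (Set.range (fun b : BI P₂ R₂ => i (bas P₂ R₂ b))) :=
    hli.linearIndepOn_id
  set B₁ := Module.Basis.extend hv with hB₁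
  set e : BI P₂ R₂ → (hv.extend (Set.subset_univ _)) :=
    fun b => ⟨i (bas P₂ R₂ b), hv.subset_extend _ ⟨b, rfl⟩⟩ with he
  have heinj : Function.Injective e := fun a b hab =>
    hli.injective (congrArg Subtype.val hab)
  have hB : ∀ b, B₁ (e b) = i (bas P₂ R₂ b) := fun b => Module.Basis.extend_apply_self hv _
  have key := act_JJ B₁ (bas P₂ R₂) j i h e hB f (Finsupp.single [] 1)
  rw [hf, act_inc, JJ_single, map_one, List.map_nil, Finsupp.smul_single, smul_eq_mul,
    mul_one] at key
  set m := act (bas P₂ R₂) f (Finsupp.single [] 1) with hm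
  have hm2 : m = Finsupp.single [] (m []) := by
    ext w
    cases w with
    | nil => rw [Finsupp.single_eq_same]
    | cons t w =>
      rw [Finsupp.single_eq_of_ne (List.cons_ne_nil t w)]
      apply hi
      rw [← JJ_apply i e heinj m (t :: w), ← key, map_zero, List.map_cons,
        Finsupp.single_eq_of_ne (List.cons_ne_nil _ _)]
  refine ⟨m [], ?_⟩
  rw [← Psi_act_one (bas P₂ R₂) f, ← hm, hm2, Psi_single, word, mul_one, Finsupp.single_eq_same]

end Pool.Agent.LibStar.W
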