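import Pool.Agent.Lib_MP_4b1745_w.A
import Pool.Agent.Lib_MP_4b1745_w.N
import Pool.Agent.Lib_MP_4b1745_w.L

/-! # The closed subring is an algebraically closed algebra over a smaller field -/

set_option autoImplicit false

namespace Pool.Agent.LibStar.W

open Pool.Agent.LibStar Cardinal

section

variable {P R : Type} [Field P] [Ring R] [Algebra P R]

/-- The scalars lying in a subring. -/
def scalarsIn (T : Subring R)
    (hinv : ∀ c : P, algebraMap P R c ∈ T → algebraMap P R c⁻¹ ∈ T) : Subfield P :=
  { T.comap (algebraMap P R) with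
    inv_mem' := fun c hc => hinv c hc }

/-- The subring as an algebra over the scalars it contains. -/
@[reducible] def algIn (T : Subring R)
    (hinv : ∀ c : P, algebraMap P R c ∈ T → algebraMap P R c⁻¹ ∈ T) :
    Algebra (scalarsIn T hinv) T :=
  (((algebraMap P R).comp (scalarsIn T hinv).subtype).codRestrict T
    (fun c => c.2)).toAlgebra'
    (fun c x => Subtype.ext (Algebra.commutes (c : P) (x : R)))

theorem AC_closed (hR : Nontrivial R) (T : Subring R)
    (hinv : ∀ c : P, algebraMap P R c ∈ T → algebraMap P R c⁻¹ ∈ T)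
    (hcoef : ∀ (n : ℕ) (r : Fin n → R), (∀ k, r k ∈ T) → ¬ LinearIndependent P r →
        ∃ c : Fin n → P, c ≠ 0 ∧ ∑ k, c k • r k = 0 ∧ ∀ k, algebraMap P R (c k) ∈ T)
    (hsol : ∀ f ∈ Subring.closure (inc P R '' (T : Set R) ∪ Set.range (var P R)),
        (∀ a, f ≠ inc P R a) → ∃ x : ℕ → R, (∀ k, x k ∈ T) ∧
          fpLift (AlgHom.id P R) x f = 0) :
    @AC (scalarsIn T hinv) T _ _ (algIn T hinv) := by
  let _ : Algebra (scalarsIn T hinv) T := algIn T hinv
  have hc : ∀ c : scalarsIn T hinv, T.subtype (algebraMap (scalarsIn T hinv) T c) =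
      algebraMap P R ((scalarsIn T hinv).subtype c) := fun c => rfl
  have hsm : ∀ (c : scalarsIn T hinv) (x : T), ((c • x : T) : R) = (c : P) • (x : R) := by
    intro c x
    rw [Algebra.smul_def, Algebra.smul_def]
    rfl
  refine ⟨⟨0, 1, fun h01 => ?_⟩, fun f hf => ?_⟩
  · have h2 : ((0 : T) : R) = ((1 : T) : R) := by rw [h01]
    exact zero_ne_one h2
  · let g := Phi (scalarsIn T hinv).subtype T.subtype hc f
    have hg : g ∈ Subring.closure (inc P R '' (T : Set R) ∪ Set.range (var P R)) := by
      change Phi (scalarsIn T hinv).subtype T.subtype hc f ∈ _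
      clear_value g
      clear hf
      induction f using fp_induction with
      | hinc r =>
        rw [Phi_inc]
        exact Subring.subset_closure (Or.inl ⟨_, r.2, rfl⟩)
      | hvar k =>
        rw [Phi_var]
        exact Subring.subset_closure (Or.inr ⟨k, rfl⟩)
      | hmul a b ha hb => rw [map_mul]; exact mul_mem ha hb
      | hadd a b ha hb => rw [map_add]; exact add_mem ha hb
    have hLD : ∀ (n : ℕ) (r : Fin n → T), LinearIndependent (scalarsIn T hinv) r →
        LinearIndependent P (fun k => T.subtype (r k)) := by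
      intro n r hr
      by_contra hn
      obtain ⟨c, hc0, hc1, hc2⟩ := hcoef n (fun k => T.subtype (r k)) (fun k => (r k).2) hn
      apply hc0
      have h3 := Fintype.linearIndependent_iff.mp hr
        (fun k => (⟨c k, hc2 k⟩ : scalarsIn T hinv)) (by
          apply Subtype.ext
          rw [AddSubmonoidClass.coe_finsetSum]
          simp only [hsm]
          exact hc1)
      funext k
      exact congrArg (fun z : scalarsIn T hinv => (z : P)) (h3 k)
    have hgc : ∀ a, g ≠ inc P R a := by
      intro a hga
      obtain ⟨r, hr⟩ := inc_of_Phi (scalarsIn T hinv).subtype T.subtype hc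
        Subtype.coe_injective hLD f a hga
      exact hf r hr
    obtain ⟨x, hx, hx0⟩ := hsol g hg hgc
    refine ⟨fun k => ⟨x k, hx k⟩, ?_⟩
    have key : (T.subtype.comp
        ((fpLift (AlgHom.id (scalarsIn T hinv) T) (fun k => (⟨x k, hx k⟩ : T)) :
          FP (scalarsIn T hinv) T →ₐ[scalarsIn T hinv] T) :
            FP (scalarsIn T hinv) T →+* T)) =
        ((fpLift (AlgHom.id P R) x : FP P R →ₐ[P] R) : FP P R →+* R).comp
          (Phi (scalarsIn T hinv).subtype T.subtype hc) := by
      apply ringHom_ext
      · intro r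
        rw [RingHom.comp_apply, RingHom.comp_apply, Phi_inc, RingHom.coe_coe, RingHom.coe_coe,
          fpLift_inc, fpLift_inc]
        rfl
      · intro k
        rw [RingHom.comp_apply, RingHom.comp_apply, Phi_var, RingHom.coe_coe, RingHom.coe_coe,
          fpLift_var, fpLift_var]
        rfl
    have h4 := RingHom.congr_fun key f
    apply Subtype.coe_injective
    change T.subtype _ = T.subtype 0
    rw [map_zero, ← hx0]
    exact h4

end

theorem exists_small {P R C : Type} [Field P] [Ring R] [Algebra P R] [Field C] (h : AC P R)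
    (j : C →+* P) : ∃ (Q : Type) (_ : Field Q) (T : Type) (_ : Ring T) (_ : Algebra Q T),
      AC Q T ∧ Nonempty (C →+* Q) ∧ Cardinal.mk Q ≤ max ℵ₀ (Cardinal.mk C) := by
  have hR := h.1
  obtain ⟨T, hST, hcard, hinv, hcoef, hsol⟩ :=
    exists_closed h (Set.range ((algebraMap P R).comp j))
  refine ⟨scalarsIn T hinv, inferInstance, T, inferInstance, algIn T hinv,
    AC_closed hR T hinv hcoef hsol, ⟨j.codRestrict (scalarsIn T hinv)
      (fun c => hST ⟨c, rfl⟩)⟩, ?_⟩
  have h1 : Cardinal.mk (scalarsIn T hinv) ≤ Cardinal.mk T := by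
    refine Cardinal.mk_le_of_injective
      (f := fun c : scalarsIn T hinv => (⟨algebraMap P R c, c.2⟩ : T)) ?_
    intro a b hab
    apply Subtype.ext
    exact (algebraMap P R).injective (congrArg (fun z : T => (z : R)) hab)
  have h2 : Cardinal.mk (Set.range ((algebraMap P R).comp j)) ≤ Cardinal.mk C :=
    Cardinal.mk_range_le
  exact h1.trans (hcard.trans (max_le_max le_rfl h2))

end Pool.Agent.LibStar.W
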