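import Pool.Agent.Lib_MP_4b1745_w.Defs

/-! # Piece T: transport along an isomorphism of ground fields -/

set_option autoImplicit false

namespace Pool.Agent.LibStar.W

open Pool.Agent.LibStar

theorem AC_transport {P Q R : Type} [Field P] [Field Q] [Ring R] [Algebra Q R] (h : AC Q R)
    (e : P ≃+* Q) : ∃ _ : Algebra P R, AC P R := by
  letI iP : Algebra P R := ((algebraMap Q R).comp (e : P →+* Q)).toAlgebra'
    (fun c x => Algebra.commutes (e c) x)
  have hj : ∀ c, RingHom.id R (algebraMap P R c) = algebraMap Q R ((e : P →+* Q) c) := fun c => rfl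
  have hj' : ∀ c, RingHom.id R (algebraMap Q R c) = algebraMap P R ((e.symm : Q →+* P) c) := by
    intro c
    change algebraMap Q R c = algebraMap Q R (e (e.symm c))
    rw [e.apply_symm_apply]
  -- the two maps
  let F := Phi (e : P →+* Q) (RingHom.id R) hj
  let G := Phi (e.symm : Q →+* P) (RingHom.id R) hj'
  have hF1 : ∀ r, F (inc P R r) = inc Q R r := fun r => Phi_inc _ _ hj r
  have hF2 : ∀ k, F (var P R k) = var Q R k := fun k => Phi_var _ _ hj k
  have hG1 : ∀ r, G (inc Q R r) = inc P R r := fun r => Phi_inc _ _ hj' r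
  have hG2 : ∀ k, G (var Q R k) = var P R k := fun k => Phi_var _ _ hj' k
  have hGF : G.comp F = RingHom.id (FP P R) := by
    refine ringHom_ext (fun r => ?_) (fun k => ?_)
    · rw [RingHom.comp_apply, hF1, hG1]; rfl
    · rw [RingHom.comp_apply, hF2, hG2]; rfl
  refine ⟨iP, h.1, fun f hf => ?_⟩
  obtain ⟨x, hx⟩ := h.2 (F f) (by
    intro a ha
    apply hf a
    have h1 : G (F f) = f := by
      rw [← RingHom.comp_apply, hGF]; rfl
    rw [← h1, ha, hG1])
  refine ⟨x, ?_⟩
  have hcomp : ((fpLift (AlgHom.id P R) x : FP P R →ₐ[P] R) : FP P R →+* R) =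
      ((fpLift (AlgHom.id Q R) x : FP Q R →ₐ[Q] R) : FP Q R →+* R).comp F := by
    refine ringHom_ext (fun r => ?_) (fun k => ?_)
    · rw [RingHom.comp_apply, hF1]
      simp only [RingHom.coe_coe, fpLift_inc]
      rfl
    · rw [RingHom.comp_apply, hF2]
      simp only [RingHom.coe_coe, fpLift_var]
  have h2 := congrArg (fun φ : FP P R →+* R => φ f) hcomp
  simp only [RingHom.comp_apply, RingHom.coe_coe] at h2
  rw [h2]
  exact hx

end Pool.Agent.LibStar.W
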