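import Pool.Agent.Lib_MP_4b1745_w.B
import Pool.Agent.Lib_MP_4b1745_w.M
import Pool.Agent.Lib_MP_4b1745_w.T
import Mathlib.FieldTheory.IsAlgClosed.Classification
import Mathlib.RingTheory.AlgebraicIndependent.TranscendenceBasis

/-! # Algebraically closed algebras over a given algebraically closed field -/

set_option autoImplicit false

namespace Pool.Agent.LibStar.W

open Pool.Agent.LibStar Cardinal

/-- Two countable algebraically closed fields of characteristic zero and of infinite transcendence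
degree are isomorphic. -/
theorem equiv_of_countable {P Q : Type} [Field P] [Field Q] [CharZero P] [CharZero Q]
    [IsAlgClosed P] [IsAlgClosed Q] (hP : Cardinal.mk P ≤ ℵ₀) (hQ : Cardinal.mk Q ≤ ℵ₀)
    (v : ℕ → P) (hv : AlgebraicIndependent ℚ v) (w : ℕ → Q) (hw : AlgebraicIndependent ℚ w) :
    Nonempty (P ≃+* Q) := by
  obtain ⟨s, hs⟩ := exists_isTranscendenceBasis ℚ P
  obtain ⟨t, ht⟩ := exists_isTranscendenceBasis ℚ Q
  have hs1 : Cardinal.mk s = ℵ₀ := by
    apply le_antisymm ((Cardinal.mk_set_le s).trans hP)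
    rw [hs.cardinalMk_eq_trdeg, ← Cardinal.mk_nat]
    exact hv.cardinalMk_le_trdeg
  have ht1 : Cardinal.mk t = ℵ₀ := by
    apply le_antisymm ((Cardinal.mk_set_le t).trans hQ)
    rw [ht.cardinalMk_eq_trdeg, ← Cardinal.mk_nat]
    exact hw.cardinalMk_le_trdeg
  obtain ⟨e⟩ := Cardinal.eq.mp (hs1.trans ht1.symm)
  exact ⟨IsAlgClosed.equivOfTranscendenceBasis _ _ e hs ht⟩

theorem exists_over (P : Type) [Field P] [CharZero P] [IsAlgClosed P]
    (v : ℕ → P) (hv : AlgebraicIndependent ℚ v) :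
    ∃ (R : Type) (_ : Ring R) (_ : Algebra P R), AC P R := by
  obtain ⟨P1, _, R1, _, _, h1, ⟨j⟩⟩ := exists_big P
  obtain ⟨Q, _, T, _, _, hT, ⟨j'⟩, hcard⟩ := exists_small h1 j
  have hQ0 : CharZero Q := charZero_of_injective_ringHom j'.injective
  have hQa : IsAlgClosed Q := A3 hT
  have hle : Cardinal.mk P ≤ Cardinal.mk Q := Cardinal.mk_le_of_injective j'.injective
  have hPinf : ℵ₀ ≤ Cardinal.mk P := by
    rw [← Cardinal.mk_nat]
    exact Cardinal.mk_le_of_injective (Nat.cast_injective (R := P))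
  have hge : Cardinal.mk Q ≤ Cardinal.mk P := hcard.trans (max_le hPinf le_rfl)
  have heq : Cardinal.mk P = Cardinal.mk Q := le_antisymm hle hge
  have hiso : Nonempty (P ≃+* Q) := by
    rcases lt_or_ge ℵ₀ (Cardinal.mk P) with hP | hP
    · exact IsAlgClosed.ringEquiv_of_equiv_of_charZero hP (Cardinal.eq.mp heq)
    · exact equiv_of_countable hP (hge.trans hP) v hv (fun k => j' (v k))
        (hv.map' (f := j'.toRatAlgHom) j'.injective)
  obtain ⟨e⟩ := hiso
  obtain ⟨a, ha⟩ := AC_transport hT e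
  exact ⟨T, inferInstance, a, ha⟩

/-- An uncountable field of characteristic zero has infinitely many algebraically independent
elements. -/
theorem exists_algInd (P : Type) [Field P] [CharZero P] (hP : ℵ₀ < Cardinal.mk P) :
    ∃ v : ℕ → P, AlgebraicIndependent ℚ v := by
  obtain ⟨s, hs⟩ := exists_isTranscendenceBasis ℚ P
  have hs1 : ℵ₀ ≤ Cardinal.mk s := by
    by_contra hlt
    rw [not_le] at hlt
    have halg := hs.isAlgebraic
    have h1 := Algebra.IsAlgebraic.cardinalMk_le_max (Algebra.adjoin ℚ (Set.range ((↑) : s → P))) P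
    have h2 : Cardinal.mk (Algebra.adjoin ℚ (Set.range ((↑) : s → P))) ≤ ℵ₀ := by
      rw [← Cardinal.mk_congr hs.1.aevalEquiv.toEquiv]
      refine MvPolynomial.cardinalMk_le_max.trans (max_le (max_le ?_ hlt.le) le_rfl)
      exact Cardinal.mk_le_aleph0
    exact absurd (h1.trans (max_le h2 le_rfl)) (not_le.mpr hP)
  rw [← Cardinal.mk_nat] at hs1
  obtain ⟨i⟩ := Cardinal.le_def _ _ |>.mp hs1
  exact ⟨fun k => (i k : P), hs.1.comp i i.injective⟩

end Pool.Agent.LibStar.W
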