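import Pool.Agent.Lib_MP_4b1745_w.GDefs

/-! # A constant algebraic over the field is algebraic over the constants -/

set_option autoImplicit false

namespace Pool.Agent.LibStar.W

open Pool.Agent.LibStar KE MvPolynomial

private lemma coeff_const_aux {K L : Type} [Field K] [Field L] [Algebra K L]
    (D : Derivation ℤ K K) (D' : Derivation ℤ L L)
    (hDK : ∀ a, D' (algebraMap K L a) = algebraMap K L (D a))
    (a : L) (ha : IsIntegral K a) (hDa : D' a = 0) (i : ℕ) :
    D ((minpoly K a).coeff i) = 0 := by
  set p := minpoly K a with hp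
  have hmon : p.Monic := minpoly.monic ha
  set pD : Polynomial K :=
    ∑ j ∈ Finset.range (p.natDegree + 1), Polynomial.monomial j (D (p.coeff j)) with hpD
  have hcoeff : ∀ j, pD.coeff j = D (p.coeff j) := by
    intro j
    rw [hpD, Polynomial.finsetSum_coeff]
    simp only [Polynomial.coeff_monomial]
    rw [Finset.sum_ite_eq']
    split_ifs with h
    · rfl
    · rw [Polynomial.coeff_eq_zero_of_natDegree_lt, map_zero]
      rw [Finset.mem_range] at h
      omega
  have hzero : Polynomial.aeval a pD = 0 := by
    have h1 : D' (Polynomial.aeval a p) = 0 := by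
      rw [hp, minpoly.aeval, map_zero]
    rw [Polynomial.aeval_eq_sum_range, map_sum] at h1
    rw [hpD, map_sum, ← h1]
    refine Finset.sum_congr rfl fun j _ => ?_
    rw [Polynomial.aeval_monomial, Algebra.smul_def, Derivation.leibniz, Derivation.leibniz_pow,
      hDa, hDK]
    simp [mul_comm]
  have hpD0 : pD = 0 := by
    by_contra hne
    have hle := minpoly.degree_le_of_ne_zero K a hne hzero
    rw [← hp, Polynomial.degree_eq_natDegree hmon.ne_zero, Polynomial.degree_eq_natDegree hne,
      Nat.cast_le] at hle
    have hlt : pD.natDegree ≤ p.natDegree := by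
      rw [Polynomial.natDegree_le_iff_coeff_eq_zero]
      intro j hj
      rw [hcoeff, Polynomial.coeff_eq_zero_of_natDegree_lt hj, map_zero]
    have heq : pD.natDegree = p.natDegree := le_antisymm hlt hle
    have hlead : pD.coeff pD.natDegree = 0 := by
      rw [heq, hcoeff, hmon.coeff_natDegree, Derivation.map_one_eq_zero]
    exact hne (Polynomial.leadingCoeff_eq_zero.mp hlead)
  rw [← hcoeff, hpD0, Polynomial.coeff_zero]

theorem mem_of_algebraic {C K L : Type} [Field C] [IsAlgClosed C] [Field K] [CharZero K]
    [Field L] [Algebra K L] (D E : Derivation ℤ K K) (D' E' : Derivation ℤ L L) (c : C →+* K)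
    (hconst : ∀ a, D a = 0 → E a = 0 → ∃ x, c x = a)
    (hDK : ∀ a, D' (algebraMap K L a) = algebraMap K L (D a))
    (hEK : ∀ a, E' (algebraMap K L a) = algebraMap K L (E a))
    (a : L) (ha : IsAlgebraic K a) (hDa : D' a = 0) (hEa : E' a = 0) :
    ∃ x : C, algebraMap K L (c x) = a := by
  have hint : IsIntegral K a := ha.isIntegral
  set p := minpoly K a with hp
  have hmon : p.Monic := minpoly.monic hint
  have hirr : Irreducible p := minpoly.irreducible hint
  have hlift : p ∈ Polynomial.lifts c := by
    rw [Polynomial.lifts_iff_coeff_lifts]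
    intro j
    obtain ⟨x, hx⟩ := hconst (p.coeff j) (coeff_const_aux D D' hDK a hint hDa j)
      (coeff_const_aux E E' hEK a hint hEa j)
    exact ⟨x, hx⟩
  obtain ⟨q, hq⟩ := (Polynomial.mem_lifts p).mp hlift
  have hdeg : q.degree ≠ 0 := by
    rw [← Polynomial.degree_map q c, hq]
    exact (Polynomial.degree_pos_of_irreducible hirr).ne'
  obtain ⟨r, hr⟩ := IsAlgClosed.exists_root q hdeg
  have hroot : p.IsRoot (c r) := by
    rw [← hq]
    exact hr.map
  have hone : p.degree = 1 := Polynomial.degree_eq_one_of_irreducible_of_root hirr hroot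
  obtain ⟨b, hb⟩ := minpoly.mem_range_of_degree_eq_one K a hone
  have hDb : D b = 0 := by
    apply (algebraMap K L).injective
    rw [← hDK, map_zero]
    rw [show algebraMap K L b = a from hb, hDa]
  have hEb : E b = 0 := by
    apply (algebraMap K L).injective
    rw [← hEK, map_zero]
    rw [show algebraMap K L b = a from hb, hEa]
  obtain ⟨x, hx⟩ := hconst b hDb hEb
  exact ⟨x, by rw [hx]; exact hb⟩

end Pool.Agent.LibStar.W
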